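import Pool.Agent.H98.CE.Targets

/-!
# Row BK1: the functional of the first blocks, deterministic properties
-/

set_option autoImplicit false

open MeasureTheory ProbabilityTheory Filter Topology
open Pool.Agent.H95 Pool.Agent.H95.Cop
open Pool.Agent.H55.CG (pz VV Mo)
open Pool.Agent.H98.CE

namespace Pool.Agent.H1.CEL

theorem sg_uniq {ℓ aY aV np : ℕ} {x : ℕ → ℝ} {S T S' T' : ℕ} (h1 : sg ℓ aY aV np S T x)
    (h2 : sg ℓ aY aV np S' T' x) (hS : S < T) (hT : T < np) (hS' : S' < T') (hT' : T' < np) :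
    S = S' ∧ T = T' := by
  have h3 : ∀ k < np, (S < k ∧ k ≤ T ↔ S' < k ∧ k ≤ T') := fun k hk =>
    (h1 k hk).symm.trans (h2 k hk)
  have a1 := (h3 (S + 1) (by omega)).1 ⟨by omega, by omega⟩
  have a2 := (h3 (S' + 1) (by omega)).2 ⟨by omega, by omega⟩
  have a3 := (h3 T hT).1 ⟨hS, le_rfl⟩
  have a4 := (h3 T' hT').2 ⟨hS', le_rfl⟩
  omega

theorem mem_II {np J : ℕ} {jj : ℕ → ℕ} {p : ℕ × ℕ} (hp : p ∈ II np J jj) :
    p.1 < p.2 ∧ p.2 < np ∧ 3 ≤ jj (p.2 - p.1) ∧ jj (p.2 - p.1) ≤ J := by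
  unfold II at hp
  rw [Finset.mem_filter, Finset.mem_product, Finset.mem_range, Finset.mem_range] at hp
  exact ⟨hp.2.1, hp.1.2, hp.2.2.1, hp.2.2.2⟩

theorem pz_nn (K : PMF ℕ) (x : ℕ → ℝ) : ∀ d a : ℕ, 0 ≤ pz K x d a := by
  intro d
  induction d using Nat.strong_induction_on with
  | _ d ih =>
    intro a
    cases d with
    | zero =>
      rw [pz]
      exact zero_le_one
    | succ d =>
      rw [pz]
      refine Finset.sum_nonneg fun j _ => ?_
      exact mul_nonneg (mul_nonneg (kk_nonneg K _) (wt_pos x _ _).le)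
        (ih (d - j) (by omega) _)

theorem WB_nn (K : PMF ℕ) (ℓ n : ℕ) (x : ℕ → ℝ) : 0 ≤ WB K ℓ n x := by
  unfold WB PX pc
  refine Finset.sum_nonneg fun u _ => Finset.sum_nonneg fun v _ => div_nonneg ?_ ?_
  · refine Finset.sum_nonneg fun y _ => Finset.sum_nonneg fun z _ => ?_
    split_ifs
    · exact pz_nn K x _ _
    · exact le_rfl
  · unfold VV
    exact Finset.sum_nonneg fun y _ => Finset.sum_nonneg fun z _ =>
      uu_nonneg _ (kk_nonneg K) _

theorem pf_BK1 (hAAB : T_AAB) (hAAM : T_AAM) : T_BK1 := by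
  classical
  intro K ℓ α β κ hℓ hα hκ hHK aY aV np J jj haY
  have hset : ∀ p : ℕ × ℕ, MeasurableSet {x : ℕ → ℝ | sg ℓ aY aV np p.1 p.2 x ∧
      Real.exp (β * jj (p.2 - p.1)) ≤ AA K ℓ α κ aY aV p.1 p.2 x} := by
    intro p
    obtain ⟨h1, h2, -, -⟩ := hAAM K ℓ α κ aY aV np p.1 p.2
    exact h2.inter (measurableSet_le measurable_const h1)
  have hdep : ∀ p ∈ II np J jj, ∀ x x' : ℕ → ℝ, (∀ i < np * (aY + aV) * ℓ, x i = x' i) →
      AA K ℓ α κ aY aV p.1 p.2 x = AA K ℓ α κ aY aV p.1 p.2 x' ∧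
      (sg ℓ aY aV np p.1 p.2 x ↔ sg ℓ aY aV np p.1 p.2 x') := by
    intro p hp x x' hx
    obtain ⟨h1, h2, -, -⟩ := mem_II hp
    obtain ⟨-, -, h3, h4⟩ := hAAM K ℓ α κ aY aV np p.1 p.2
    exact ⟨h3 h1 h2 x x' hx, (h4 x x' hx).to_iff⟩
  refine ⟨?_, ?_, ?_, ?_, ?_⟩
  · unfold w0
    refine Finset.measurable_sum _ fun p _ => ?_
    exact Measurable.ite (hset p) (hAAM K ℓ α κ aY aV np p.1 p.2).1 measurable_const
  · unfold l0
    refine Finset.measurable_sum _ fun p _ => ?_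
    exact Measurable.ite (hset p) measurable_const measurable_const
  · intro x x' hx
    unfold w0
    refine Finset.sum_congr rfl fun p hp => ?_
    obtain ⟨h1, h2⟩ := hdep p hp x x' hx
    rw [h1]
    simp only [h2]
  · intro x x' hx
    unfold l0
    refine Finset.sum_congr rfl fun p hp => ?_
    obtain ⟨h1, h2⟩ := hdep p hp x x' hx
    rw [h1]
    simp only [h2]
  · intro x
    by_cases hex : ∃ p ∈ II np J jj, sg ℓ aY aV np p.1 p.2 x ∧
        Real.exp (β * jj (p.2 - p.1)) ≤ AA K ℓ α κ aY aV p.1 p.2 x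
    · obtain ⟨p, hp, hsg, hexp⟩ := hex
      obtain ⟨h1, h2, h3, h4⟩ := mem_II hp
      have huniq : ∀ q ∈ II np J jj, q ≠ p → ¬ (sg ℓ aY aV np q.1 q.2 x ∧
          Real.exp (β * jj (q.2 - q.1)) ≤ AA K ℓ α κ aY aV q.1 q.2 x) := by
        rintro q hq hne ⟨hs, -⟩
        obtain ⟨h5, h6, -, -⟩ := mem_II hq
        obtain ⟨h7, h8⟩ := sg_uniq hs hsg h5 h6 h1 h2
        exact hne (Prod.ext h7 h8)
      have hw : w0 K ℓ α β κ aY aV np J jj x = AA K ℓ α κ aY aV p.1 p.2 x := by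
        unfold w0
        rw [Finset.sum_eq_single_of_mem p hp fun q hq hne => if_neg (huniq q hq hne),
          if_pos ⟨hsg, hexp⟩]
      have hl : l0 K ℓ α β κ aY aV np J jj x = jj (p.2 - p.1) := by
        unfold l0
        rw [Finset.sum_eq_single_of_mem p hp fun q hq hne => if_neg (huniq q hq hne),
          if_pos ⟨hsg, hexp⟩]
      obtain ⟨h5, h6⟩ := hAAB K ℓ α κ hℓ hα hκ hHK x aY aV np p.1 p.2 haY h1 h2
      rw [hw, hl]
      exact ⟨h5, h6, fun h => by omega, fun _ => hexp, h4⟩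
    · push Not at hex
      have hno : ∀ q ∈ II np J jj, ¬ (sg ℓ aY aV np q.1 q.2 x ∧
          Real.exp (β * jj (q.2 - q.1)) ≤ AA K ℓ α κ aY aV q.1 q.2 x) := by
        rintro q hq ⟨hs, he⟩
        exact absurd he (not_le.2 (hex q hq hs))
      have hw : w0 K ℓ α β κ aY aV np J jj x = 0 := by
        unfold w0
        exact Finset.sum_eq_zero fun q hq => if_neg (hno q hq)
      have hl : l0 K ℓ α β κ aY aV np J jj x = 0 := by
        unfold l0
        exact Finset.sum_eq_zero fun q hq => if_neg (hno q hq)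
      rw [hw, hl]
      exact ⟨le_rfl, WB_nn K ℓ _ x, fun _ => rfl, fun h => absurd rfl h, Nat.zero_le _⟩

end Pool.Agent.H1.CEL
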