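import Pool.Agent.H98.CE.Targets

/-!
# Row CLO: lower bound of a chain by its label
-/

set_option autoImplicit false

open Pool.Agent.H98.CE

namespace Pool.Agent.H1.CEL

theorem chain (G : ℕ) (hGLF : T_GLF) (f r : ℕ → ℝ) (g : ℕ → ℕ) (β : ℝ) (thr : ℕ)
    (hthr : 1 ≤ thr) (hβ : 0 ≤ β)
    (hr : ∀ d, 3 ≤ d → d ≤ G + 2 → Real.exp (-(β * ((thr : ℝ) - 1))) ≤ r d) :
    ∀ (m i : ℕ), ∀ L ∈ gl G m i, (∀ k ∈ L, thr ≤ g k ∧ Real.exp (β * g k) ≤ f k) →
      m * (thr - 1) + thr ≤ (L.map g).sum ∧
      Real.exp (β * (((L.map g).sum : ℝ) - m * ((thr : ℝ) - 1))) ≤ cw f r L := by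
  intro m
  induction m with
  | zero =>
    intro i L hL hk
    rw [gl, Finset.mem_singleton] at hL
    subst hL
    have h1 := hk i (List.mem_singleton.2 rfl)
    constructor
    · simpa using h1.1
    · simpa [cw] using h1.2
  | succ m ih =>
    intro i L hL hk
    rw [gl, Finset.mem_biUnion] at hL
    obtain ⟨d, hd, hL⟩ := hL
    rw [Finset.mem_image] at hL
    obtain ⟨L', hL', rfl⟩ := hL
    rw [Finset.mem_Ico] at hd
    have h1 := ((hGLF G m (i + d)).2 L' hL').2.2.1
    obtain ⟨h2, h3⟩ := ih (i + d) L' hL' fun k hk' => hk k (List.mem_cons_of_mem _ hk')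
    have h4 := hk i List.mem_cons_self
    cases L' with
    | nil => simp at h1
    | cons j L'' =>
      have hj : j = i + d := by simpa using h1
      rw [List.map_cons, List.sum_cons]
      constructor
      · have h5 := h4.1
        have h6 : (m + 1) * (thr - 1) + thr = (thr - 1) + (m * (thr - 1) + thr) := by ring
        rw [h6]
        omega
      · have h5 : cw f r (i :: j :: L'') = f i * r (j + 1 - i) * cw f r (j :: L'') := rfl
        rw [h5]
        have h6 := hr (j + 1 - i) (by omega) (by omega)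
        have h7 : Real.exp (β * (((g i + ((j :: L'').map g).sum : ℕ) : ℝ) -
            ((m + 1 : ℕ) : ℝ) * ((thr : ℝ) - 1))) =
            Real.exp (β * g i) * Real.exp (-(β * ((thr : ℝ) - 1))) *
            Real.exp (β * ((((j :: L'').map g).sum : ℝ) - m * ((thr : ℝ) - 1))) := by
          rw [← Real.exp_add, ← Real.exp_add]
          congr 1
          push_cast
          ring
        rw [h7]
        have h8 : 0 ≤ f i := (Real.exp_pos _).le.trans h4.2
        have h9 : 0 ≤ r (j + 1 - i) := (Real.exp_pos _).le.trans h6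
        exact mul_le_mul (mul_le_mul h4.2 h6 (Real.exp_pos _).le h8) h3 (Real.exp_pos _).le
          (mul_nonneg h8 h9)

theorem pf_CLO (hGLF : T_GLF) : T_CLO := by
  intro G m i L hL f r g β thr hthr hβ hk hr
  obtain ⟨h1, h2⟩ := chain G hGLF f r g β thr hthr hβ hr m i L hL hk
  have h3 : L.length - 1 = m := by
    rw [((hGLF G m i).2 L hL).2.1]
    rfl
  rw [h3]
  refine ⟨h1, ?_⟩
  have h4 : (((L.map g).sum - m * (thr - 1) : ℕ) : ℝ) =
      ((L.map g).sum : ℝ) - m * ((thr : ℝ) - 1) := by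
    rw [Nat.cast_sub (by omega), Nat.cast_mul, Nat.cast_sub hthr, Nat.cast_one]
  rw [h4]
  exact h2

end Pool.Agent.H1.CEL
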